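import Mathlib

/-! Allowed columns: in every dyadic interval of length `2 ^ l`, `l ≥ l0`, the first `60 (l + 2)`
columns are never used. So between two used columns at distance `D` there is a consecutive gap of
length at least `60 (log₂ D + 1)`, and only few columns are not allowed. -/

set_option autoImplicit false

namespace Pool.Agent.H67.CM

open Finset

open scoped Classical in
/-- The columns below `M` that are not allowed. -/
noncomputable def badCols (l0 M : ℕ) : Finset ℕ :=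
  (range M).filter (fun b => ∃ l, l0 ≤ l ∧ 2 ^ l ≤ M ∧ b % 2 ^ l < 60 * (l + 2))

/-- The allowed columns. -/
def Allowed (l0 M b : ℕ) : Prop := ∀ l, l0 ≤ l → 2 ^ l ≤ M → 60 * (l + 2) ≤ b % 2 ^ l

/-- The guaranteed gap at distance `D`. -/
def gapLen (J D : ℕ) : ℕ := max J (60 * (Nat.log 2 D + 1))

theorem hole_le (l : ℕ) (hl : 10 ≤ l) : 60 * (l + 2) ≤ 2 ^ l := by
  induction l, hl using Nat.le_induction with
  | base => norm_num
  | succ n hn ih =>
    rw [pow_succ]
    have : 2 ^ 10 ≤ 2 ^ n := Nat.pow_le_pow_right (by norm_num) hn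
    omega

/-- Gap lemma: `S` is the set of used columns, `b` the present column, `c ∈ S`. -/
theorem gap (S : Finset ℕ) (b c J l0 M : ℕ) (hc : c ∈ S) (hb : b ≤ M)
    (hSb : ∀ x ∈ S, x + J ≤ b) (hsp : ∀ x ∈ S, ∀ y ∈ S, x < y → x + J ≤ y)
    (hal : ∀ x ∈ S, Allowed l0 M x) (hl0 : 10 ≤ l0) (hJ : 60 * (l0 + 1) ≤ J) :
    ∃ x ∈ S, c ≤ x ∧ ∃ y, (y ∈ S ∨ y = b) ∧ x + gapLen J (b - c) ≤ y ∧
      ∀ z ∈ S, z ≤ x ∨ y ≤ z := by
  classical
  by_cases hD : Nat.log 2 (b - c) ≤ l0
  · -- small distance: the last used column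
    have hne : S.Nonempty := ⟨c, hc⟩
    refine ⟨S.max' hne, S.max'_mem hne, S.le_max' c hc, b, Or.inr rfl, ?_,
      fun z hz => Or.inl (S.le_max' z hz)⟩
    have h1 : gapLen J (b - c) = J := by
      unfold gapLen
      rw [max_eq_left]
      have : Nat.log 2 (b - c) + 1 ≤ l0 + 1 := by omega
      calc 60 * (Nat.log 2 (b - c) + 1) ≤ 60 * (l0 + 1) := Nat.mul_le_mul_left _ this
        _ ≤ J := hJ
    rw [h1]
    exact hSb _ (S.max'_mem hne)
  · push Not at hD
    obtain ⟨l, hl⟩ : ∃ l, Nat.log 2 (b - c) = l + 1 := ⟨Nat.log 2 (b - c) - 1, by omega⟩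
    have hcb : c + J ≤ b := hSb c hc
    have hJ0 : 0 < J := by omega
    have hD0 : b - c ≠ 0 := by omega
    have hl1 : l0 ≤ l := by omega
    have h2 : 2 ^ (l + 1) ≤ b - c := by
      rw [← hl]; exact Nat.pow_log_le_self 2 hD0
    have h2' : 2 ^ (l + 1) = 2 ^ l + 2 ^ l := by rw [pow_succ]; ring
    have h3 : 60 * (l + 2) ≤ 2 ^ l := hole_le l (by omega)
    have hM : 2 ^ l ≤ M := by omega
    -- the first multiple of `2 ^ l` after `c`
    set j := c / 2 ^ l + 1 with hj
    have hpos : 0 < 2 ^ l := by positivity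
    have h4 : c < j * 2 ^ l := by
      rw [hj, add_mul, one_mul]
      have := Nat.div_add_mod c (2 ^ l)
      have h5 := Nat.mod_lt c hpos
      rw [mul_comm] at this
      omega
    have h5 : j * 2 ^ l ≤ c + 2 ^ l := by
      rw [hj, add_mul, one_mul]
      have := Nat.div_mul_le_self c (2 ^ l)
      omega
    have hhole : ∀ z ∈ S, z < j * 2 ^ l ∨ j * 2 ^ l + 60 * (l + 2) ≤ z := by
      intro z hz
      by_contra hcon
      push Not at hcon
      obtain ⟨h6, h7⟩ := hcon
      have h8 := hal z hz l hl1 hM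
      have h9 : z % 2 ^ l = z - j * 2 ^ l := by
        have h10 : z = (z - j * 2 ^ l) + 2 ^ l * j := by
          rw [mul_comm (2 ^ l) j]; omega
        have h11 : z - j * 2 ^ l < 2 ^ l := by omega
        conv_lhs => rw [h10]
        rw [Nat.add_mul_mod_self_left, Nat.mod_eq_of_lt h11]
      omega
    -- the last used column before the hole
    have hne : (S.filter (fun z => z < j * 2 ^ l)).Nonempty := ⟨c, mem_filter.2 ⟨hc, h4⟩⟩
    set x := (S.filter (fun z => z < j * 2 ^ l)).max' hne with hx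
    have hx1 := (S.filter (fun z => z < j * 2 ^ l)).max'_mem hne
    rw [← hx] at hx1
    obtain ⟨hxS, hxlt⟩ := mem_filter.1 hx1
    have hcx : c ≤ x := by
      rw [hx]; exact Finset.le_max' _ c (mem_filter.2 ⟨hc, h4⟩)
    -- the first used column after the hole, or `b`
    have hbge : j * 2 ^ l + 60 * (l + 2) ≤ b := by omega
    have hne2 : ((insert b S).filter (fun z => j * 2 ^ l + 60 * (l + 2) ≤ z)).Nonempty :=
      ⟨b, mem_filter.2 ⟨mem_insert_self _ _, hbge⟩⟩
    set y := ((insert b S).filter (fun z => j * 2 ^ l + 60 * (l + 2) ≤ z)).min' hne2 with hy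
    have hy1 := ((insert b S).filter (fun z => j * 2 ^ l + 60 * (l + 2) ≤ z)).min'_mem hne2
    rw [← hy] at hy1
    obtain ⟨hyS, hyge⟩ := mem_filter.1 hy1
    have hyS' : y ∈ S ∨ y = b := by
      rcases mem_insert.1 hyS with h | h
      · exact Or.inr h
      · exact Or.inl h
    have hcons : ∀ z ∈ S, z ≤ x ∨ y ≤ z := by
      intro z hz
      rcases hhole z hz with h | h
      · left
        rw [hx]; exact Finset.le_max' _ z (mem_filter.2 ⟨hz, h⟩)
      · right
        rw [hy]; exact Finset.min'_le _ z (mem_filter.2 ⟨mem_insert_of_mem hz, h⟩)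
    refine ⟨x, hxS, hcx, y, hyS', ?_, hcons⟩
    unfold gapLen
    rw [hl]
    have hJy : x + J ≤ y := by
      rcases hyS' with h | h
      · exact hsp x hxS y h (by omega)
      · rw [h]; exact hSb x hxS
    have h60 : x + 60 * (l + 1 + 1) ≤ y := by omega
    rcases le_total J (60 * (l + 1 + 1)) with h | h
    · rw [max_eq_right h]; exact h60
    · rw [max_eq_left h]; exact hJy

theorem allowed_of_not_mem (l0 M b : ℕ) (hb : b < M) (h : b ∉ badCols l0 M) :
    Allowed l0 M b := by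
  classical
  intro l hl hM
  by_contra hcon
  exact h (mem_filter.2 ⟨mem_range.2 hb, l, hl, hM, by omega⟩)

/-- Few columns are not allowed. -/
theorem card_badCols (l0 M : ℕ) :
    ((badCols l0 M).card : ℝ) ≤ 240 * (l0 + 3) * M / 2 ^ l0 := by
  classical
  rcases Nat.eq_zero_or_pos M with hM0 | hM0
  · subst hM0; simp [badCols]
  set Lm := Nat.log 2 M with hLm
  -- one scale
  have hone : ∀ l : ℕ, 2 ^ l ≤ M →
      (((range M).filter (fun b => b % 2 ^ l < 60 * (l + 2))).card : ℝ)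
        ≤ 120 * (l + 2) * M / 2 ^ l := by
    intro l hl
    have hpos : 0 < 2 ^ l := by positivity
    have h1 : (range M).filter (fun b => b % 2 ^ l < 60 * (l + 2)) ⊆
        (((range (M / 2 ^ l + 1)) ×ˢ (range (60 * (l + 2)))).image
          (fun z => z.1 * 2 ^ l + z.2)) := by
      intro b hb
      obtain ⟨hb1, hb2⟩ := mem_filter.1 hb
      refine mem_image.2 ⟨(b / 2 ^ l, b % 2 ^ l), mem_product.2 ⟨?_, mem_range.2 hb2⟩, ?_⟩
      · refine mem_range.2 (Nat.lt_succ_of_le ?_)
        exact Nat.div_le_div_right (mem_range.1 hb1).le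
      · have := Nat.div_add_mod b (2 ^ l)
        simp only
        rw [mul_comm]; exact this
    have h2 : ((range M).filter (fun b => b % 2 ^ l < 60 * (l + 2))).card
        ≤ (M / 2 ^ l + 1) * (60 * (l + 2)) := by
      refine (card_le_card h1).trans (card_image_le.trans ?_)
      rw [card_product, card_range, card_range]
    have h3 : (((M / 2 ^ l : ℕ) : ℝ)) ≤ (M : ℝ) / 2 ^ l := by
      have := @Nat.cast_div_le ℝ _ _ _ M (2 ^ l)
      simpa using this
    have h4 : (1 : ℝ) ≤ (M : ℝ) / 2 ^ l := by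
      rw [le_div_iff₀ (by positivity), one_mul]
      exact_mod_cast hl
    calc (((range M).filter (fun b => b % 2 ^ l < 60 * (l + 2))).card : ℝ)
        ≤ (((M / 2 ^ l + 1) * (60 * (l + 2)) : ℕ) : ℝ) := by exact_mod_cast h2
      _ = (((M / 2 ^ l : ℕ) : ℝ) + 1) * (60 * (l + 2)) := by push_cast; ring
      _ ≤ ((M : ℝ) / 2 ^ l + (M : ℝ) / 2 ^ l) * (60 * (l + 2)) := by
          apply mul_le_mul_of_nonneg_right _ (by positivity)
          linarith
      _ = 120 * (l + 2) * M / 2 ^ l := by ring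
  -- all scales
  have h5 : badCols l0 M ⊆
      (Finset.Icc l0 Lm).biUnion
        (fun l => (range M).filter (fun b => b % 2 ^ l < 60 * (l + 2))) := by
    intro b hb
    obtain ⟨hb1, l, hl1, hl2, hl3⟩ := mem_filter.1 hb
    refine mem_biUnion.2 ⟨l, mem_Icc.2 ⟨hl1, ?_⟩, mem_filter.2 ⟨hb1, hl3⟩⟩
    exact (Nat.le_log_iff_pow_le (by norm_num) (by omega)).2 hl2
  have h6 : ∀ n : ℕ, ∑ l ∈ Finset.Ico l0 (l0 + n), ((l : ℝ) + 2) / 2 ^ l
      ≤ 2 * (l0 + 3) / 2 ^ l0 - 2 * ((l0 + n : ℕ) + 3) / 2 ^ (l0 + n) := by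
    intro n
    induction n with
    | zero => simp
    | succ n ih =>
      rw [← Nat.add_assoc, Finset.sum_Ico_succ_top (by omega)]
      have h7 : (0 : ℝ) < 2 ^ (l0 + n) := by positivity
      have h8 : (2 : ℝ) ^ (l0 + n + 1) = 2 * 2 ^ (l0 + n) := by rw [pow_succ]; ring
      rw [h8]
      have h9 : 2 * (((l0 + n + 1 : ℕ) : ℝ) + 3) / (2 * 2 ^ (l0 + n))
          = (((l0 + n : ℕ) : ℝ) + 4) / 2 ^ (l0 + n) := by
        push_cast
        field_simp
        ring
      rw [h9]
      have h10 : (((l0 + n : ℕ) : ℝ) + 2) / 2 ^ (l0 + n) + (((l0 + n : ℕ) : ℝ) + 4) / 2 ^ (l0 + n)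
          = 2 * (((l0 + n : ℕ) : ℝ) + 3) / 2 ^ (l0 + n) := by
        rw [← add_div]; ring
      linarith
  have h11 : ∑ l ∈ Finset.Icc l0 Lm, ((l : ℝ) + 2) / 2 ^ l ≤ 2 * (l0 + 3) / 2 ^ l0 := by
    rcases le_or_gt l0 Lm with h | h
    · have h12 : Finset.Icc l0 Lm = Finset.Ico l0 (l0 + (Lm + 1 - l0)) := by
        ext z; simp only [mem_Icc, mem_Ico]; omega
      rw [h12]
      refine (h6 _).trans ?_
      have : (0 : ℝ) ≤ 2 * (((l0 + (Lm + 1 - l0) : ℕ) : ℝ) + 3) / 2 ^ (l0 + (Lm + 1 - l0)) := by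
        positivity
      linarith
    · rw [Finset.Icc_eq_empty (by omega), Finset.sum_empty]
      positivity
  calc ((badCols l0 M).card : ℝ)
      ≤ (((Finset.Icc l0 Lm).biUnion
        (fun l => (range M).filter (fun b => b % 2 ^ l < 60 * (l + 2)))).card : ℝ) := by
        exact_mod_cast card_le_card h5
    _ ≤ ((∑ l ∈ Finset.Icc l0 Lm,
        ((range M).filter (fun b => b % 2 ^ l < 60 * (l + 2))).card : ℕ) : ℝ) := by
        exact_mod_cast card_biUnion_le
    _ = ∑ l ∈ Finset.Icc l0 Lm,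
        (((range M).filter (fun b => b % 2 ^ l < 60 * (l + 2))).card : ℝ) := by push_cast; rfl
    _ ≤ ∑ l ∈ Finset.Icc l0 Lm, 120 * ((l : ℝ) + 2) * M / 2 ^ l := by
        refine Finset.sum_le_sum fun l hl => hone l ?_
        have := (mem_Icc.1 hl).2
        exact (Nat.le_log_iff_pow_le (by norm_num) (by omega)).1 this
    _ = (∑ l ∈ Finset.Icc l0 Lm, ((l : ℝ) + 2) / 2 ^ l) * (120 * M) := by
        rw [Finset.sum_mul]
        refine Finset.sum_congr rfl fun l _ => ?_
        ring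
    _ ≤ (2 * (l0 + 3) / 2 ^ l0) * (120 * M) :=
        mul_le_mul_of_nonneg_right h11 (by positivity)
    _ = 240 * (l0 + 3) * M / 2 ^ l0 := by ring

end Pool.Agent.H67.CM
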