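import Mathlib

/-! Kraft codes: a function `f` on a set `S` has a code with cost `c` if there are weights of total
mass at most one on a finite set of values such that the value `f g` has weight at least
`2 ^ (- c g)`. Costs add along a process. -/

set_option autoImplicit false

namespace Pool.Agent.H67.CM

open Finset

/-- `f` is coded on `S` with cost (number of bits) `c`. -/
def Kraft {G X : Type*} (S : Set G) (f : G → X) (c : G → ℝ) : Prop :=
  ∃ (F : Finset X) (w : X → ℝ), (∀ x, 0 ≤ w x) ∧ ∑ x ∈ F, w x ≤ 1 ∧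
    ∀ g ∈ S, f g ∈ F ∧ (2 : ℝ) ^ (-(c g)) ≤ w (f g)

variable {G X Y Z : Type*}

theorem Kraft.mono {S S' : Set G} {f f' : G → X} {c c' : G → ℝ} (h : Kraft S f c)
    (hS : S' ⊆ S) (hf : ∀ g ∈ S', f' g = f g) (hc : ∀ g ∈ S', c g ≤ c' g) : Kraft S' f' c' := by
  obtain ⟨F, w, h0, h1, h2⟩ := h
  refine ⟨F, w, h0, h1, fun g hg => ?_⟩
  obtain ⟨h3, h4⟩ := h2 g (hS hg)
  rw [hf g hg]
  refine ⟨h3, le_trans ?_ h4⟩
  exact Real.rpow_le_rpow_of_exponent_le (by norm_num) (by linarith [hc g hg])

/-- A constant function costs nothing. -/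
theorem Kraft.const (S : Set G) (x : X) : Kraft S (fun _ => x) (fun _ => 0) := by
  classical
  refine ⟨{x}, fun y => if y = x then 1 else 0, fun y => ?_, ?_, fun g _ => ?_⟩
  · show (0 : ℝ) ≤ if y = x then 1 else 0
    split_ifs <;> norm_num
  · simp
  · simp

/-- A function with at most `2 ^ b` values on `S` has a code of constant cost `b`. -/
theorem Kraft.of_card {S : Set G} {f : G → X} (F : Finset X) (hF : ∀ g ∈ S, f g ∈ F) (b : ℝ)
    (hb : (F.card : ℝ) ≤ 2 ^ b) : Kraft S f (fun _ => b) := by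
  classical
  refine ⟨F, fun x => if x ∈ F then (2 : ℝ) ^ (-b) else 0, fun y => ?_, ?_, fun g hg => ?_⟩
  · show (0 : ℝ) ≤ if y ∈ F then (2 : ℝ) ^ (-b) else 0
    split_ifs
    · positivity
    · exact le_rfl
  · rw [Finset.sum_congr rfl (g := fun _ => (2 : ℝ) ^ (-b)) (fun x hx => by simp [hx])]
    rw [Finset.sum_const, nsmul_eq_mul]
    calc (F.card : ℝ) * 2 ^ (-b) ≤ 2 ^ b * 2 ^ (-b) := by
          exact mul_le_mul_of_nonneg_right hb (by positivity)
      _ = 1 := by rw [← Real.rpow_add (by norm_num)]; simp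
  · exact ⟨hF g hg, by simp [hF g hg]⟩

/-- Push forward: a function of a coded function is coded with the same cost. -/
theorem Kraft.map {S : Set G} {f : G → X} {c : G → ℝ} (h : Kraft S f c) (p : X → Y) :
    Kraft S (fun g => p (f g)) c := by
  classical
  obtain ⟨F, w, h0, h1, h2⟩ := h
  refine ⟨F.image p, fun y => ∑ x ∈ F with p x = y, w x,
    fun y => Finset.sum_nonneg fun x _ => h0 x, ?_, fun g hg => ?_⟩
  · rw [Finset.sum_fiberwise_of_maps_to (fun x hx => Finset.mem_image_of_mem p hx)]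
    exact h1
  · obtain ⟨h3, h4⟩ := h2 g hg
    refine ⟨Finset.mem_image_of_mem p h3, h4.trans ?_⟩
    exact Finset.single_le_sum (f := w) (fun x _ => h0 x)
      (Finset.mem_filter.2 ⟨h3, rfl⟩)

/-- Chain rule: if `f` is coded and, for every value `x` of `f`, the function `h x` is coded on the
part of `S` on which `f` has the value `x`, then the pair is coded and the costs add. -/
theorem Kraft.chain {S : Set G} {f : G → X} {c : G → ℝ} (hf : Kraft S f c)
    (h : X → G → Y) (c' : X → G → ℝ)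
    (hh : ∀ x, Kraft {g | g ∈ S ∧ f g = x} (h x) (c' x)) :
    Kraft S (fun g => (f g, h (f g) g)) (fun g => c g + c' (f g) g) := by
  classical
  obtain ⟨F, w, h0, h1, h2⟩ := hf
  choose F' w' h0' h1' h2' using hh
  refine ⟨F.sigma (fun x => F' x) |>.image (fun z => (z.1, z.2)), fun z => w z.1 * w' z.1 z.2,
    fun z => mul_nonneg (h0 _) (h0' _ _), ?_, fun g hg => ?_⟩
  · rw [Finset.sum_image (by
      rintro ⟨a, b⟩ _ ⟨a', b'⟩ _ hab
      simp only [Prod.mk.injEq] at hab
      obtain ⟨rfl, rfl⟩ := hab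
      rfl)]
    rw [Finset.sum_sigma]
    calc ∑ x ∈ F, ∑ y ∈ F' x, w x * w' x y = ∑ x ∈ F, w x * ∑ y ∈ F' x, w' x y := by
          simp_rw [Finset.mul_sum]
      _ ≤ ∑ x ∈ F, w x * 1 :=
          Finset.sum_le_sum fun x _ => mul_le_mul_of_nonneg_left (h1' x) (h0 x)
      _ ≤ 1 := by simpa using h1
  · obtain ⟨h3, h4⟩ := h2 g hg
    obtain ⟨h5, h6⟩ := h2' (f g) g ⟨hg, rfl⟩
    refine ⟨Finset.mem_image.2 ⟨⟨f g, h (f g) g⟩, Finset.mem_sigma.2 ⟨h3, h5⟩, rfl⟩, ?_⟩
    rw [neg_add, Real.rpow_add (by norm_num)]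
    exact mul_le_mul h4 h6 (by positivity) (h0 _)

/-- Chain rule, keeping only the second component. -/
theorem Kraft.chain' {S : Set G} {f : G → X} {c : G → ℝ} (hf : Kraft S f c)
    (h : X → G → Y) (c' : X → G → ℝ)
    (hh : ∀ x, Kraft {g | g ∈ S ∧ f g = x} (h x) (c' x)) :
    Kraft S (fun g => h (f g) g) (fun g => c g + c' (f g) g) :=
  (hf.chain h c' hh).map Prod.snd

/-- Product rule: independent codes. -/
theorem Kraft.prod {S : Set G} {f : G → X} {c : G → ℝ} (hf : Kraft S f c)
    {h : G → Y} {c' : G → ℝ} (hh : Kraft S h c') :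
    Kraft S (fun g => (f g, h g)) (fun g => c g + c' g) :=
  hf.chain (fun _ => h) (fun _ => c')
    (fun _ => hh.mono (fun _ hg => hg.1) (fun _ _ => rfl) (fun _ _ => le_rfl))

/-- Finite products of codes. -/
theorem Kraft.pi {ι : Type*} [DecidableEq ι] {S : Set G} {f : ι → G → X} {c : ι → G → ℝ} (x0 : X)
    (I : Finset ι) (h : ∀ i ∈ I, Kraft S (f i) (c i)) :
    Kraft S (fun g i => if i ∈ I then f i g else x0) (fun g => ∑ i ∈ I, c i g) := by
  classical
  induction I using Finset.induction_on with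
  | empty => simpa using Kraft.const S (fun _ : ι => x0)
  | insert a I ha ih =>
    have h1 := ih (fun i hi => h i (Finset.mem_insert_of_mem hi))
    have h2 := h1.prod (h a (Finset.mem_insert_self _ _))
    have h3 := h2.map (fun z : (ι → X) × X => Function.update z.1 a z.2)
    refine h3.mono (Set.Subset.refl _) (fun g _ => ?_) (fun g _ => ?_)
    · funext i
      by_cases hi : i = a
      · subst hi; simp
      · simp [hi]
    · rw [Finset.sum_insert ha]
      linarith

/-- The binary choice (a bit). -/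
theorem Kraft.bool {S : Set G} (f : G → Bool) : Kraft S f (fun _ => 1) := by
  refine Kraft.of_card Finset.univ (fun _ _ => Finset.mem_univ _) 1 ?_
  simp

/-- Case distinction: `f` is coded with cost `c1` where `p` holds and `c2` elsewhere; one more bit. -/
theorem Kraft.ite {S : Set G} {f : G → X} {c1 c2 : G → ℝ} (p : G → Prop) [DecidablePred p]
    (h1 : Kraft {g | g ∈ S ∧ p g} f c1) (h2 : Kraft {g | g ∈ S ∧ ¬ p g} f c2) :
    Kraft S f (fun g => 1 + if p g then c1 g else c2 g) := by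
  have h := (Kraft.bool (S := S) (fun g => decide (p g))).chain'
    (fun _ => f) (fun b g => if b then c1 g else c2 g) (fun b => by
      cases b with
      | true =>
        refine h1.mono (fun g hg => ⟨hg.1, by simpa using hg.2⟩) (fun _ _ => rfl)
          (fun g _ => by simp)
      | false =>
        refine h2.mono (fun g hg => ⟨hg.1, by simpa using hg.2⟩) (fun _ _ => rfl)
          (fun g _ => by simp))
  refine h.mono (Set.Subset.refl _) (fun _ _ => rfl) (fun g _ => ?_)
  simp

/-- A function coded with a cost bounded by `C` on `S` has at most `2 ^ C` values. -/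
theorem Kraft.card_le {S : Set G} {f : G → X} {c : G → ℝ} (h : Kraft S f c) (C : ℝ)
    (hc : ∀ g ∈ S, c g ≤ C) :
    ∃ F : Finset X, (∀ g ∈ S, f g ∈ F) ∧ (F.card : ℝ) ≤ 2 ^ C := by
  classical
  obtain ⟨F, w, h0, h1, h2⟩ := h
  refine ⟨F.filter (fun x => (2 : ℝ) ^ (-C) ≤ w x), fun g hg => ?_, ?_⟩
  · obtain ⟨h3, h4⟩ := h2 g hg
    refine Finset.mem_filter.2 ⟨h3, le_trans ?_ h4⟩
    exact Real.rpow_le_rpow_of_exponent_le (by norm_num) (by linarith [hc g hg])
  · have h5 : ((F.filter (fun x => (2 : ℝ) ^ (-C) ≤ w x)).card : ℝ) * 2 ^ (-C) ≤ 1 := by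
      calc ((F.filter (fun x => (2 : ℝ) ^ (-C) ≤ w x)).card : ℝ) * 2 ^ (-C)
          = ∑ x ∈ F.filter (fun x => (2 : ℝ) ^ (-C) ≤ w x), (2 : ℝ) ^ (-C) := by
            rw [Finset.sum_const, nsmul_eq_mul]
        _ ≤ ∑ x ∈ F.filter (fun x => (2 : ℝ) ^ (-C) ≤ w x), w x :=
            Finset.sum_le_sum fun x hx => (Finset.mem_filter.1 hx).2
        _ ≤ ∑ x ∈ F, w x :=
            Finset.sum_le_sum_of_subset_of_nonneg (Finset.filter_subset _ _)
              (fun x _ _ => h0 x)
        _ ≤ 1 := h1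
    have h6 : (0 : ℝ) < 2 ^ (-C) := by positivity
    have h7 : (2 : ℝ) ^ C * 2 ^ (-C) = 1 := by
      rw [← Real.rpow_add (by norm_num)]; simp
    have h8 : (0 : ℝ) < 2 ^ C := by positivity
    calc ((F.filter (fun x => (2 : ℝ) ^ (-C) ≤ w x)).card : ℝ)
        = ((F.filter (fun x => (2 : ℝ) ^ (-C) ≤ w x)).card : ℝ) * (2 ^ C * 2 ^ (-C)) := by
          rw [h7, mul_one]
      _ = (((F.filter (fun x => (2 : ℝ) ^ (-C) ≤ w x)).card : ℝ) * 2 ^ (-C)) * 2 ^ C := by ring
      _ ≤ 1 * 2 ^ C := mul_le_mul_of_nonneg_right h5 h8.le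
      _ = 2 ^ C := one_mul _

/-- The process: from a state `s` (after `b` steps) every `g` moves to `step b s g`; the step is
coded on the `g` that satisfy the invariant at `s`, and the invariant is preserved. The final state
is coded with the sum of the costs, and it satisfies the invariant. -/
theorem Kraft.process {St : Type*} (S : Set G) (Inv : ℕ → St → G → Prop) (s0 : St)
    (h0 : ∀ g ∈ S, Inv 0 s0 g) (step : ℕ → St → G → St) (cost : ℕ → St → G → ℝ) (M : ℕ)
    (hstep : ∀ b < M, ∀ s, Kraft {g | g ∈ S ∧ Inv b s g} (step b s) (cost b s))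
    (hinv : ∀ b < M, ∀ s, ∀ g ∈ S, Inv b s g → Inv (b + 1) (step b s g) g) :
    ∃ st : ℕ → G → St, (∀ g, st 0 g = s0) ∧ (∀ b < M, ∀ g, st (b + 1) g = step b (st b g) g) ∧
      (∀ b ≤ M, ∀ g ∈ S, Inv b (st b g) g) ∧
      (∀ b ≤ M, Kraft S (st b) (fun g => ∑ i ∈ range b, cost i (st i g) g)) := by
  let st : ℕ → G → St := fun b g => Nat.rec s0 (fun b s => step b s g) b
  have hst0 : ∀ g, st 0 g = s0 := fun g => rfl
  have hst1 : ∀ b g, st (b + 1) g = step b (st b g) g := fun b g => rfl
  have hi : ∀ b ≤ M, ∀ g ∈ S, Inv b (st b g) g := by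
    intro b
    induction b with
    | zero => intro _ g hg; exact h0 g hg
    | succ b ih =>
      intro hb g hg
      rw [hst1]
      exact hinv b (by omega) _ g hg (ih (by omega) g hg)
  refine ⟨st, hst0, fun b _ g => hst1 b g, hi, ?_⟩
  intro b
  induction b with
  | zero =>
    intro _
    exact (Kraft.const S s0).mono (Set.Subset.refl _) (fun g _ => hst0 g) (fun g _ => by simp)
  | succ b ih =>
    intro hb
    have h1 := (ih (by omega)).chain' (step b) (cost b) (fun s =>
      (hstep b (by omega) s).mono (fun g hg => ⟨hg.1, by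
        have := hi b (by omega) g hg.1
        rwa [hg.2] at this⟩) (fun _ _ => rfl) (fun _ _ => le_rfl))
    refine h1.mono (Set.Subset.refl _) (fun g _ => hst1 b g) (fun g _ => ?_)
    rw [Finset.sum_range_succ]

end Pool.Agent.H67.CM
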